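import Mathlib

/-!
# The real periods of `y² = x³ - 35 a² x - 98 a³` and of the curve for `-7 a`
-/

set_option autoImplicit false
set_option linter.unusedSectionVars false

open MeasureTheory

namespace Pool.Agent.L0h4.T7

/-- the integral of `2 / √(4 x³ - 140 a² x - 392 a³)` -/
noncomputable def PS (a : ℝ) : ℝ :=
  ∫ x : ℝ, 2 / Real.sqrt (4 * x ^ 3 - 140 * a ^ 2 * x - 392 * a ^ 3)

/-- the scaling -/
lemma PS_scale {c : ℝ} (hc : 0 < c) (a : ℝ) : PS (c * a) = PS a / Real.sqrt c := by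
  have hs0 : 0 < Real.sqrt c := Real.sqrt_pos.2 hc
  have hss : Real.sqrt c * Real.sqrt c = c := Real.mul_self_sqrt hc.le
  have e2 := Measure.integral_comp_mul_left
    (fun y : ℝ => 2 / Real.sqrt (4 * y ^ 3 - 140 * (c * a) ^ 2 * y - 392 * (c * a) ^ 3)) c
  have e3 : (∫ x : ℝ, (fun y : ℝ => 2 / Real.sqrt (4 * y ^ 3 - 140 * (c * a) ^ 2 * y -
      392 * (c * a) ^ 3)) (c * x)) =
      ∫ x : ℝ, 1 / (c * Real.sqrt c) *
        (2 / Real.sqrt (4 * x ^ 3 - 140 * a ^ 2 * x - 392 * a ^ 3)) := by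
    congr 1
    funext x
    beta_reduce
    have e5 : 4 * (c * x) ^ 3 - 140 * (c * a) ^ 2 * (c * x) - 392 * (c * a) ^ 3 =
        (c * Real.sqrt c) ^ 2 * (4 * x ^ 3 - 140 * a ^ 2 * x - 392 * a ^ 3) := by
      rw [mul_pow c (Real.sqrt c), pow_two (Real.sqrt _), hss]; ring
    rw [e5, Real.sqrt_mul (by positivity), Real.sqrt_sq (by positivity)]
    by_cases h5 : Real.sqrt (4 * x ^ 3 - 140 * a ^ 2 * x - 392 * a ^ 3) = 0
    · rw [h5]
      simp
    · field_simp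
  rw [e3, integral_const_mul] at e2
  have e5 : |c⁻¹| = c⁻¹ := abs_of_pos (by positivity)
  rw [e5, smul_eq_mul] at e2
  have e6 : PS (c * a) = c * (1 / (c * Real.sqrt c) * PS a) := by
    unfold PS
    rw [e2]
    field_simp
  rw [e6]
  field_simp

/-- the integral for the other equation -/
noncomputable def PT (a : ℝ) : ℝ :=
  ∫ x : ℝ, 2 / Real.sqrt (4 * x ^ 3 - 3 * a * x ^ 2 - 8 * a ^ 2 * x - 4 * a ^ 3)

lemma PT_eq (a : ℝ) : PT a = 2 * PS a := by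
  have e1 : PS a = ∫ x : ℝ, (fun y : ℝ => 2 / Real.sqrt (4 * y ^ 3 - 140 * a ^ 2 * y - 392 * a ^ 3))
      (x + (-a)) :=
    (integral_add_right_eq_self
      (fun y : ℝ => 2 / Real.sqrt (4 * y ^ 3 - 140 * a ^ 2 * y - 392 * a ^ 3)) (-a)).symm
  have e2 := Measure.integral_comp_mul_left
    (fun x : ℝ => (fun y : ℝ => 2 / Real.sqrt (4 * y ^ 3 - 140 * a ^ 2 * y - 392 * a ^ 3))
      (x + (-a))) 4
  have e3 : (∫ x : ℝ, (fun x : ℝ => (fun y : ℝ => 2 / Real.sqrt (4 * y ^ 3 - 140 * a ^ 2 * y -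
      392 * a ^ 3)) (x + (-a))) (4 * x)) =
      ∫ x : ℝ, 1 / 8 * (2 / Real.sqrt (4 * x ^ 3 - 3 * a * x ^ 2 - 8 * a ^ 2 * x - 4 * a ^ 3)) := by
    congr 1
    funext x
    beta_reduce
    have e4 : 4 * (4 * x + -a) ^ 3 - 140 * a ^ 2 * (4 * x + -a) - 392 * a ^ 3 =
        8 ^ 2 * (4 * x ^ 3 - 3 * a * x ^ 2 - 8 * a ^ 2 * x - 4 * a ^ 3) := by ring
    rw [e4, Real.sqrt_mul (by norm_num), Real.sqrt_sq (by norm_num)]
    by_cases h5 : Real.sqrt (4 * x ^ 3 - 3 * a * x ^ 2 - 8 * a ^ 2 * x - 4 * a ^ 3) = 0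
    · rw [h5]
      simp
    · field_simp
  rw [e3, integral_const_mul] at e2
  have e5 : |(4 : ℝ)⁻¹| = 1 / 4 := by norm_num
  rw [e5, smul_eq_mul, ← e1] at e2
  unfold PT
  linarith

/-! ### the isogeny of degree seven -/

private noncomputable def p0 (x : ℝ) : ℝ := x ^ 3 + 7 * x ^ 2 - 21 * x - 91

private noncomputable def n0 (x : ℝ) : ℝ :=
  x ^ 7 + 14 * x ^ 6 + 343 * x ^ 5 - 588 * x ^ 4 - 24353 * x ^ 3 - 120050 * x ^ 2 - 285719 * x -
    422576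

private noncomputable def m0 (x : ℝ) : ℝ :=
  x ^ 9 + 21 * x ^ 8 - 252 * x ^ 7 + 1764 * x ^ 6 + 43806 * x ^ 5 + 519302 * x ^ 4 +
    3834740 * x ^ 3 + 15183924 * x ^ 2 + 27681129 * x + 8252237

private noncomputable def X (x : ℝ) : ℝ := n0 x / p0 x ^ 2

private lemma p0_pos {x : ℝ} (hx : 7 ≤ x) : 0 < p0 x := by
  obtain ⟨t, ht, rfl⟩ : ∃ t : ℝ, 0 ≤ t ∧ x = 7 + t := ⟨x - 7, by linarith, by ring⟩
  have e : p0 (7 + t) = 448 + 224 * t + 28 * t ^ 2 + t ^ 3 := by unfold p0; ring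
  rw [e]
  positivity

private lemma m0_pos {x : ℝ} (hx : 7 ≤ x) : 0 < m0 x := by
  obtain ⟨t, ht, rfl⟩ : ∃ t : ℝ, 0 ≤ t ∧ x = 7 + t := ⟨x - 7, by linarith, by ring⟩
  have e : m0 (7 + t) = 4405854208 + 2202927104 * t + 472055808 * t ^ 2 + 60411904 * t ^ 3 +
      5970944 * t ^ 4 + 564480 * t ^ 5 + 47040 * t ^ 6 + 2688 * t ^ 7 + 84 * t ^ 8 + t ^ 9 := by
    unfold m0; ring
  rw [e]
  positivity

private lemma X_ge {x : ℝ} (hx : 7 ≤ x) : x - 56 ≤ X x := by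
  have hp := p0_pos hx
  unfold X
  rw [le_div_iff₀ (by positivity)]
  obtain ⟨t, ht, rfl⟩ : ∃ t : ℝ, 0 ≤ t ∧ x = 7 + t := ⟨x - 7, by linarith, by ring⟩
  have e : n0 (7 + t) - (7 + t - 56) * p0 (7 + t) ^ 2 = 9633792 * t + 4716544 * t ^ 2 +
      890624 * t ^ 3 + 80640 * t ^ 4 + 3472 * t ^ 5 + 56 * t ^ 6 := by
    unfold n0 p0; ring
  have h : 0 ≤ 9633792 * t + 4716544 * t ^ 2 +
      890624 * t ^ 3 + 80640 * t ^ 4 + 3472 * t ^ 5 + 56 * t ^ 6 := by positivity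
  linarith

private lemma X_seven : X 7 = -49 := by
  unfold X n0 p0
  norm_num

private lemma X_deriv {x : ℝ} (hx : 7 ≤ x) : HasDerivAt X (m0 x / p0 x ^ 3) x := by
  have hp := p0_pos hx
  have hn : HasDerivAt n0 (7 * x ^ 6 + 84 * x ^ 5 + 1715 * x ^ 4 - 2352 * x ^ 3 - 73059 * x ^ 2 -
      240100 * x - 285719) x := by
    have h1 := (((((((hasDerivAt_pow 7 x).add ((hasDerivAt_pow 6 x).const_mul 14)).add
      ((hasDerivAt_pow 5 x).const_mul 343)).sub ((hasDerivAt_pow 4 x).const_mul 588)).sub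
      ((hasDerivAt_pow 3 x).const_mul 24353)).sub ((hasDerivAt_pow 2 x).const_mul 120050)).sub
      ((hasDerivAt_id x).const_mul 285719)).sub_const 422576
    refine h1.congr_deriv ?_
    push_cast
    ring
  have hd : HasDerivAt p0 (3 * x ^ 2 + 14 * x - 21) x := by
    have h1 := (((hasDerivAt_pow 3 x).add ((hasDerivAt_pow 2 x).const_mul 7)).sub
      ((hasDerivAt_id x).const_mul 21)).sub_const 91
    refine h1.congr_deriv ?_
    push_cast
    ring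
  have h2 := hn.div (hd.pow 2) (pow_ne_zero 2 hp.ne')
  have e : ((7 * x ^ 6 + 84 * x ^ 5 + 1715 * x ^ 4 - 2352 * x ^ 3 - 73059 * x ^ 2 -
      240100 * x - 285719) * p0 x ^ 2 - n0 x * (((2 : ℕ) : ℝ) * p0 x ^ (2 - 1) *
        (3 * x ^ 2 + 14 * x - 21))) / (p0 x ^ 2) ^ 2 = m0 x / p0 x ^ 3 := by
    have hp0 := hp.ne'
    have e1 : m0 x = (7 * x ^ 6 + 84 * x ^ 5 + 1715 * x ^ 4 - 2352 * x ^ 3 - 73059 * x ^ 2 -
      240100 * x - 285719) * p0 x - 2 * n0 x * (3 * x ^ 2 + 14 * x - 21) := by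
      unfold m0 n0 p0; ring
    rw [e1]
    field_simp
    push_cast
    ring
  rw [← e]
  exact h2

private lemma X_mono : StrictMonoOn X (Set.Ici 7) := by
  refine strictMonoOn_of_deriv_pos (convex_Ici 7) ?_ ?_
  · intro x hx
    exact (X_deriv hx).continuousAt.continuousWithinAt
  · intro x hx
    rw [interior_Ici] at hx
    have hx' : 7 ≤ x := le_of_lt hx
    rw [(X_deriv hx').deriv]
    exact div_pos (m0_pos hx') (pow_pos (p0_pos hx') 3)

private lemma X_image : X '' Set.Ioi 7 = Set.Ioi (-49) := by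
  ext y
  constructor
  · rintro ⟨x, hx, rfl⟩
    have h := X_mono (Set.self_mem_Ici : (7 : ℝ) ∈ Set.Ici 7) (Set.mem_Ici.2 (le_of_lt hx)) hx
    rw [X_seven] at h
    exact h
  · intro hy
    have hy' : -49 < y := hy
    have hcont : ContinuousOn X (Set.Icc 7 (y + 57)) := fun x hx =>
      (X_deriv hx.1).continuousAt.continuousWithinAt
    have h1 := intermediate_value_Icc (by linarith : (7 : ℝ) ≤ y + 57) hcont
    have h2 : y ∈ Set.Icc (X 7) (X (y + 57)) := by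
      rw [X_seven]
      refine ⟨hy'.le, ?_⟩
      have := X_ge (x := y + 57) (by linarith)
      linarith
    obtain ⟨x, hx, rfl⟩ := h1 h2
    refine ⟨x, ?_, rfl⟩
    rcases hx.1.lt_or_eq with h3 | h3
    · exact h3
    · rw [← h3, X_seven] at hy'
      exact absurd hy' (lt_irrefl _)

private lemma f_X {x : ℝ} (hx : 7 < x) :
    |m0 x / p0 x ^ 3| • (2 / Real.sqrt (4 * X x ^ 3 - 140 * (-7) ^ 2 * X x - 392 * (-7) ^ 3)) =
      2 / Real.sqrt (4 * x ^ 3 - 140 * 1 ^ 2 * x - 392 * 1 ^ 3) := by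
  have hp := p0_pos hx.le
  have hm := m0_pos hx.le
  have hp0 := hp.ne'
  have e : 4 * X x ^ 3 - 140 * (-7) ^ 2 * X x - 392 * (-7) ^ 3 =
      (m0 x / p0 x ^ 3) ^ 2 * (4 * x ^ 3 - 140 * 1 ^ 2 * x - 392 * 1 ^ 3) := by
    have e1 : (x ^ 3 - 35 * x - 98) * m0 x ^ 2 =
        n0 x ^ 3 - 1715 * n0 x * p0 x ^ 4 + 33614 * p0 x ^ 6 := by
      unfold m0 n0 p0
      ring
    unfold X
    field_simp
    linear_combination (-4) * e1
  have h4 : 0 < m0 x / p0 x ^ 3 := div_pos hm (pow_pos hp 3)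
  rw [e, Real.sqrt_mul (sq_nonneg _), Real.sqrt_sq h4.le, abs_of_pos h4, smul_eq_mul]
  have h5 : 0 < 4 * x ^ 3 - 140 * 1 ^ 2 * x - 392 * 1 ^ 3 := by
    obtain ⟨t, ht, rfl⟩ : ∃ t : ℝ, 0 < t ∧ x = 7 + t := ⟨x - 7, by linarith, by ring⟩
    have e : 4 * (7 + t) ^ 3 - 140 * 1 ^ 2 * (7 + t) - 392 * 1 ^ 3 =
        448 * t + 84 * t ^ 2 + 4 * t ^ 3 := by ring
    rw [e]
    positivity
  have h6 := (Real.sqrt_pos.2 h5).ne'
  generalize Real.sqrt (4 * x ^ 3 - 140 * 1 ^ 2 * x - 392 * 1 ^ 3) = s at h6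
  generalize m0 x / p0 x ^ 3 = r at h4
  field_simp

/-- **the two periods are equal** -/
theorem PS_seven : PS (-7) = PS 1 := by
  have h1 : PS (-7) = ∫ x in Set.Ioi (-49), 2 / Real.sqrt (4 * x ^ 3 - 140 * (-7) ^ 2 * x -
      392 * (-7) ^ 3) := by
    unfold PS
    refine (setIntegral_eq_integral_of_forall_compl_eq_zero ?_).symm
    intro x hx
    have hx' : x ≤ -49 := not_lt.1 hx
    have h : 4 * x ^ 3 - 140 * (-7) ^ 2 * x - 392 * (-7) ^ 3 ≤ 0 := by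
      have e : 4 * x ^ 3 - 140 * (-7) ^ 2 * x - 392 * (-7) ^ 3 =
          4 * ((x + 49) * ((x - 49 / 2) ^ 2 + 343 / 4)) := by ring
      rw [e]
      have : (x + 49) * ((x - 49 / 2) ^ 2 + 343 / 4) ≤ 0 :=
        mul_nonpos_of_nonpos_of_nonneg (by linarith) (by positivity)
      linarith
    rw [Real.sqrt_eq_zero_of_nonpos h, div_zero]
  have h2 : PS 1 = ∫ x in Set.Ioi 7, 2 / Real.sqrt (4 * x ^ 3 - 140 * 1 ^ 2 * x - 392 * 1 ^ 3) := by
    unfold PS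
    refine (setIntegral_eq_integral_of_forall_compl_eq_zero ?_).symm
    intro x hx
    have hx' : x ≤ 7 := not_lt.1 hx
    have h : 4 * x ^ 3 - 140 * 1 ^ 2 * x - 392 * 1 ^ 3 ≤ 0 := by
      have e : 4 * x ^ 3 - 140 * 1 ^ 2 * x - 392 * 1 ^ 3 =
          4 * ((x - 7) * ((x + 7 / 2) ^ 2 + 7 / 4)) := by ring
      rw [e]
      have : (x - 7) * ((x + 7 / 2) ^ 2 + 7 / 4) ≤ 0 :=
        mul_nonpos_of_nonpos_of_nonneg (by linarith) (by positivity)
      linarith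
    rw [Real.sqrt_eq_zero_of_nonpos h, div_zero]
  rw [h1, h2, ← X_image]
  rw [integral_image_eq_integral_abs_deriv_smul (f' := fun x => m0 x / p0 x ^ 3) measurableSet_Ioi
    (fun x hx => (X_deriv (le_of_lt hx)).hasDerivWithinAt)
    (X_mono.injOn.mono fun x hx => Set.mem_Ici.2 (le_of_lt hx))]
  exact setIntegral_congr_fun measurableSet_Ioi fun x hx => f_X hx

/-- the periods of the two twists -/
theorem PS_neg {a : ℝ} (ha : 0 < a) : PS (-7 * a) = PS a := by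
  have h1 := PS_scale ha (-7)
  have h2 := PS_scale ha 1
  rw [mul_one] at h2
  rw [mul_comm (-7) a, h1, h2, PS_seven]

theorem PT_neg {a : ℝ} (ha : 0 < a) : PT (-7 * a) = PT a := by
  rw [PT_eq, PT_eq, PS_neg ha]

end Pool.Agent.L0h4.T7
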